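import Mathlib

set_option autoImplicit false
open Matrix Set

namespace Pool.Agent.Results.MP_97563e_nt.Counter

/-- the ambient space -/
abbrev E := Fin 3 → ℝ

/-- the integer lattice -/
def Lat : AddSubgroup E := AddSubgroup.pi univ fun _ => AddSubgroup.zmultiples (1 : ℝ)

/-- one of the eight closed cones cut out by the planes whose equations are the rows of `L` -/
def cone (L : Matrix (Fin 3) (Fin 3) ℝ) (s : Fin 3 → ℤˣ) : Set E :=
  {x | ∀ i, 0 ≤ ((s i : ℤ) : ℝ) * (L *ᵥ x) i}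

/-- convex hull of the nonzero lattice points of a cone -/
def hull (L : Matrix (Fin 3) (Fin 3) ℝ) (s : Fin 3 → ℤˣ) : Set E :=
  convexHull ℝ ((cone L s ∩ Lat) \ {0})

/-- the sail of a cone -/
def sail (L : Matrix (Fin 3) (Fin 3) ℝ) (s : Fin 3 → ℤˣ) : Set E := frontier (hull L s)

/-- equivalence of continued fractions -/
def Equivalent (L L' : Matrix (Fin 3) (Fin 3) ℝ) : Prop :=
  ∃ g : GL (Fin 3) ℤ, (fun x => (g : Matrix (Fin 3) (Fin 3) ℤ).map (Int.cast : ℤ → ℝ) *ᵥ x) ''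
    (⋃ s, sail L s) = ⋃ s, sail L' s

/-- `F` is a `d`-dimensional face of `K` -/
def IsCell (K : Set E) (d : ℕ) (F : Set E) : Prop :=
  F.Nonempty ∧ IsExposed ℝ K F ∧ Module.finrank ℝ (vectorSpan ℝ F) = d

/-- integer length -/
noncomputable def intLength (F : Set E) : ℕ∞ := (F ∩ Lat).encard - 1

/-- the lattice of the plane of `F` -/
def planeLat (F : Set E) : AddSubgroup E := Lat ⊓ (vectorSpan ℝ F).toAddSubgroup

/-- the ray from `v` along `A` -/
def ray (v : E) (A : Set E) : Set E := {x | ∃ y ∈ A, ∃ t : ℝ, 0 ≤ t ∧ x = v + t • (y - v)}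

/-- integer angle at `v` between two edges of `F` -/
noncomputable def intAngle (F : Set E) (v : E) (A B : Set E) : ℕ :=
  (AddSubgroup.closure ((· - v) '' ((ray v A ∪ ray v B) ∩ Lat))).relIndex (planeLat F)

/-- integer area of a lattice triangle in the plane of `F` -/
noncomputable def triArea (F : Set E) (T : Fin 3 → E) : ℕ :=
  (AddSubgroup.closure {T 1 - T 0, T 2 - T 0}).relIndex (planeLat F)

/-- open triangle -/
def openTri (T : Fin 3 → E) : Set E :=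
  {x | ∃ c : Fin 3 → ℝ, (∀ i, 0 < c i) ∧ ∑ i, c i = 1 ∧ x = ∑ i, c i • T i}

/-- integer area: supremum of the total area of non-overlapping lattice triangles in `F` -/
noncomputable def intArea (F : Set E) : ℕ∞ :=
  ⨆ (S : Finset (Fin 3 → E)) (_ : ∀ T ∈ S, ∀ i, T i ∈ F ∩ Lat)
    (_ : (S : Set (Fin 3 → E)).Pairwise fun T T' => Disjoint (openTri T) (openTri T')),
    ((∑ T ∈ S, triArea F T : ℕ) : ℕ∞)

/-- `F` lies in a plane at integer distance `c` from the origin -/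
def IntDist (F : Set E) (c : ℕ) : Prop :=
  ∃ (l : Fin 3 → ℤ) (c0 : ℤ), Finset.univ.gcd l = 1 ∧ c = c0.natAbs ∧
    ∀ x ∈ F, ∑ i, (l i : ℝ) * x i = c0

/-- the two triples of planes -/
def LL (p : ℝ) : Matrix (Fin 3) (Fin 3) ℝ := !![5, -p, 0; 0, -1, 5; 0, 1, 0]

lemma mem_Lat {x : E} : x ∈ Lat ↔ ∃ a b c : ℤ, x = ![(a : ℝ), b, c] := by
  simp only [Lat, AddSubgroup.mem_pi, mem_univ, true_imp_iff, AddSubgroup.mem_zmultiples_iff,
    zsmul_eq_mul, mul_one]
  constructor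
  · intro h
    choose f hf using h
    exact ⟨f 0, f 1, f 2, by ext i; fin_cases i <;> simp [hf]⟩
  · rintro ⟨a, b, c, rfl⟩ i
    fin_cases i <;> simp

lemma LL_mul (p : ℝ) (x : E) : LL p *ᵥ x = ![5 * x 0 - p * x 1, 5 * x 2 - x 1, x 1] := by
  ext i
  fin_cases i <;> simp [LL, mulVec, dotProduct, Fin.sum_univ_three] <;> ring

lemma cone_closed (L : Matrix (Fin 3) (Fin 3) ℝ) (s : Fin 3 → ℤˣ) : IsClosed (cone L s) := by
  simp only [cone, ofPred_forall]
  exact isClosed_iInter fun i => isClosed_le continuous_const (by fun_prop)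

lemma cone_convex (L : Matrix (Fin 3) (Fin 3) ℝ) (s : Fin 3 → ℤˣ) : Convex ℝ (cone L s) :=
  fun x hx y hy a b ha hb _ i => by
    have := add_nonneg (mul_nonneg ha (hx i)) (mul_nonneg hb (hy i))
    simp only [mulVec_add, mulVec_smul, Pi.add_apply, Pi.smul_apply, smul_eq_mul]
    linarith

lemma hull_sub (L : Matrix (Fin 3) (Fin 3) ℝ) (s : Fin 3 → ℤˣ) : hull L s ⊆ cone L s :=
  convexHull_min (fun _ h => h.1.1) (cone_convex L s)

/-- generators -/
def V (p : ℝ) : Fin 3 → E := ![![1, 0, 0], ![0, 0, 1], ![p, 5, 1]]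

lemma LV (p : ℝ) (i : Fin 3) : LL p *ᵥ V p i = Pi.single i 5 := by
  rw [LL_mul]
  ext j
  fin_cases i <;> fin_cases j <;> simp [V] <;> ring

lemma decomp (p : ℝ) (x : E) : x = ∑ i, ((LL p *ᵥ x) i / 5) • V p i := by
  rw [LL_mul]
  ext j
  fin_cases j <;> simp [V, Fin.sum_univ_three] <;> ring

lemma sq1 (u : ℤˣ) : ((u : ℤ) : ℝ) * (u : ℤ) = 1 := by
  rcases Int.units_eq_one_or u with rfl | rfl <;> simp

lemma sub_hull (p : ℤ) (s : Fin 3 → ℤˣ) {x : E} (hx : x ∈ cone (LL p) s)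
    (h : 5 ≤ ∑ i, ((s i : ℤ) : ℝ) * (LL p *ᵥ x) i) : x ∈ hull (LL p) s := by
  set σ := ∑ i, ((s i : ℤ) : ℝ) * (LL p *ᵥ x) i
  have gen : ∀ i (n : ℤ), 0 < n → ((n * s i : ℤ) : ℝ) • V p i ∈ hull (LL p) s := fun i n hn =>
    subset_convexHull _ _ ⟨⟨fun j => by
      rw [mulVec_smul, LV, Pi.smul_apply, smul_eq_mul]
      by_cases hj : j = i
      · subst hj
        have : (0 : ℝ) < n := by exact_mod_cast hn
        push_cast
        rw [Pi.single_eq_same]
        nlinarith [sq1 (s j)]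
      · simp [hj], by
      rw [Int.cast_smul_eq_zsmul]
      refine Lat.zsmul_mem (mem_Lat.mpr ?_) _
      fin_cases i
      exacts [⟨1, 0, 0, by simp [V]⟩, ⟨0, 0, 1, by simp [V]⟩, ⟨p, 5, 1, by simp [V]⟩]⟩, fun h0 => by
      have := congrFun (congrArg (LL p *ᵥ ·) h0) i
      simp [mulVec_smul, LV, hn.ne'] at this⟩
  have gen2 : ∀ i, (σ / 5 * s i) • V p i ∈ hull (LL p) s := fun i => by
    obtain ⟨a, b, ha, hb, hab, e⟩ : σ / 5 ∈ segment ℝ ((1 : ℤ) : ℝ) (⌈σ / 5⌉ : ℤ) := by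
      have : (1 : ℝ) ≤ σ / 5 := by linarith
      rw [segment_eq_Icc (by simpa using this.trans (Int.le_ceil _))]
      exact ⟨by simpa, Int.le_ceil _⟩
    have := convex_convexHull ℝ _ (gen i 1 one_pos) (gen i ⌈σ / 5⌉ (Int.ceil_pos.mpr (by linarith)))
      ha hb hab
    rw [smul_smul, smul_smul, ← add_smul] at this
    refine mem_of_eq_of_mem (congrArg (· • V p i) ?_) this
    conv_lhs => rw [← e]
    push_cast; simp only [smul_eq_mul]; ring
  have σ0 : 0 < σ := by linarith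
  have := (convex_convexHull ℝ _).sum_mem (t := Finset.univ)
    (w := fun i => ((s i : ℤ) : ℝ) * (LL p *ᵥ x) i / σ) (fun i _ => div_nonneg (hx i) σ0.le)
    (by rw [← Finset.sum_div, div_self σ0.ne']) fun i _ => gen2 i
  refine mem_of_eq_of_mem ((decomp p x).trans (Finset.sum_congr rfl fun i _ => ?_)) this
  rw [smul_smul]
  congr 1
  field_simp
  linear_combination (-(LL p *ᵥ x) i) * sq1 (s i)

lemma hull_eq (p : ℤ) (hp : p = 1 ∨ p = 2) : hull (LL p) 1 =
    {x | (∀ i, 0 ≤ (LL p *ᵥ x) i) ∧ 5 ≤ ∑ i, (LL p *ᵥ x) i} := by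
  refine Subset.antisymm (convexHull_min ?_ ?_) fun x hx =>
    sub_hull p 1 (by simpa [cone] using hx.1) (by simpa using hx.2)
  · rintro x ⟨⟨h1, h2⟩, h3⟩
    obtain ⟨a, b, c, rfl⟩ := mem_Lat.mp h2
    refine ⟨by simpa [cone] using h1, ?_⟩
    have h0 := h1 0
    have h4 := h1 1
    have h5 := h1 2
    have h6 : ¬ (a = 0 ∧ b = 0 ∧ c = 0) := by
      rintro ⟨rfl, rfl, rfl⟩
      exact h3 (by ext i; fin_cases i <;> simp)
    simp [LL_mul, Fin.sum_univ_three] at h0 h4 h5 ⊢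
    norm_cast at h0 h4 ⊢
    obtain ⟨q, r, rfl, r0, r1⟩ : ∃ q r, b = 5 * q + r ∧ 0 ≤ r ∧ r < 5 :=
      ⟨b / 5, b % 5, by omega, by omega, by omega⟩
    rcases hp with rfl | rfl <;> interval_cases r <;> omega
  · intro x hx y hy a b ha hb hab
    simp only [mem_ofPred, mulVec_add, mulVec_smul, Pi.add_apply, Pi.smul_apply, smul_eq_mul,
      Finset.sum_add_distrib, ← Finset.mul_sum]
    exact ⟨fun i => add_nonneg (mul_nonneg ha (hx.1 i)) (mul_nonneg hb (hy.1 i)), by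
      nlinarith [mul_le_mul_of_nonneg_left hx.2 ha, mul_le_mul_of_nonneg_left hy.2 hb]⟩

lemma wall_of_sail (p : ℤ) (s : Fin 3 → ℤˣ) {x : E} (hx : x ∈ sail (LL p) s)
    (h : 5 < ∑ i, |(LL p *ᵥ x) i|) : ∃ i, (LL p *ᵥ x) i = 0 := by
  by_contra! h0
  have h1 : x ∈ cone (LL p) s := closure_minimal (hull_sub _ _) (cone_closed _ _) hx.1
  have s0 : ∀ i, ((s i : ℤ) : ℝ) ≠ 0 := fun i => by simp
  refine hx.2 (mem_interior.mpr ⟨{y | (∀ i, 0 < ((s i : ℤ) : ℝ) * (LL p *ᵥ y) i) ∧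
    5 < ∑ i, ((s i : ℤ) : ℝ) * (LL p *ᵥ y) i}, fun y hy => sub_hull p s (fun i => (hy.1 i).le) hy.2.le,
    ?_, fun i => (h1 i).lt_of_ne' (mul_ne_zero (s0 i) (h0 i)), h.trans_eq ?_⟩)
  · simp only [ofPred_and, ofPred_forall]
    exact (isOpen_iInter_of_finite fun i => isOpen_lt continuous_const (by fun_prop)).inter
      (isOpen_lt continuous_const (by fun_prop))
  · refine Finset.sum_congr rfl fun i _ => ?_
    rw [← abs_of_nonneg (h1 i), abs_mul]
    rcases Int.units_eq_one_or (s i) with h | h <;> simp [h]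

lemma sail_of_wall (p : ℤ) {x : E} (h : 5 ≤ ∑ i, |(LL p *ᵥ x) i|) (i : Fin 3)
    (hi : (LL p *ᵥ x) i = 0) : ∃ s, x ∈ sail (LL p) s := by
  let s : Fin 3 → ℤˣ := fun j => if 0 ≤ (LL p *ᵥ x) j then 1 else -1
  have e : ∀ j, ((s j : ℤ) : ℝ) * (LL p *ᵥ x) j = |(LL p *ᵥ x) j| := fun j => by
    simp only [s]
    split_ifs with h
    · simp [abs_of_nonneg h]
    · simp [abs_of_neg (not_le.mp h)]
  refine ⟨s, subset_closure (sub_hull p s (fun j => e j ▸ abs_nonneg _) (by simpa only [e])),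
    fun hx => ?_⟩
  have h1 : Filter.Tendsto (fun t : ℝ => x + t • V p i) (nhds 0) (nhds x) :=
    Continuous.tendsto' (by fun_prop) _ _ (by simp)
  obtain ⟨t, t1, t2⟩ := (((h1.eventually (mem_interior_iff_mem_nhds.mp hx)).filter_mono
    (nhdsWithin_le_nhds (s := Iio 0))).and self_mem_nhdsWithin).exists
  have := hull_sub _ _ t1 i
  simp [s, hi, mulVec_add, mulVec_smul, LV] at this
  linarith [show t < 0 from t2]

lemma not_equiv : ¬ Equivalent (LL (1 : ℤ)) (LL (2 : ℤ)) := by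
  rintro ⟨g, hg⟩
  obtain ⟨A, hA⟩ : ∃ A : Matrix (Fin 3) (Fin 3) ℤ, A =
    !![5, -2, 0; 0, -1, 5; 0, 1, 0] * g.1 * !![1, 0, 1; 0, 0, 5; 0, 1, 1] := ⟨_, rfl⟩
  have key : ∀ u : Fin 3 → ℤ, u ≠ 0 → (∃ i, u i = 0) → ∃ j, (A *ᵥ u) j = 0 := fun u u0 ⟨i, hi⟩ => by
    by_contra! h
    let x : E := ∑ j, ((2 * u j : ℤ) : ℝ) • V (1 : ℤ) j
    have x1 : ∀ j, (LL (1 : ℤ) *ᵥ x) j = (10 * u j : ℤ) := fun j => by
      simp only [x, mulVec_sum, mulVec_smul, LV, Finset.sum_apply, Pi.smul_apply, Pi.single_apply]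
      simp; ring
    have x2 : ∀ j, (LL (2 : ℤ) *ᵥ (g.1.map (Int.cast : ℤ → ℝ) *ᵥ x)) j = (2 * (A *ᵥ u) j : ℤ) :=
      fun j => by
        fin_cases j <;> simp [x, hA, LL, V, mulVec, dotProduct, Fin.sum_univ_three, mul_apply,
          vecMul] <;> ring
    obtain ⟨k, hk⟩ := Function.ne_iff.mp u0
    obtain ⟨s, hs⟩ := sail_of_wall 1 (x := x) (le_trans (by
      rw [x1]; norm_cast; have : u k ≠ 0 := hk; rw [le_abs]; omega) (Finset.single_le_sum
      (f := fun j => |(LL (1 : ℤ) *ᵥ x) j|) (fun _ _ => abs_nonneg _) (Finset.mem_univ k))) i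
      (by rw [x1]; simp [hi])
    obtain ⟨s', hs'⟩ := mem_iUnion.mp (hg.subset ⟨x, mem_iUnion.mpr ⟨s, hs⟩, rfl⟩)
    obtain ⟨j, hj⟩ := wall_of_sail 2 s' hs' (by
      simp only [x2, Fin.sum_univ_three]
      norm_cast
      have := h 0
      have := h 1
      have := h 2
      simp only [abs_eq_max_neg]
      omega)
    rw [x2] at hj
    exact h j (by simpa using hj)
  have k2 : ∀ a b : Fin 3, a ≠ b → ∃ j, A j a = 0 ∧ A j b = 0 := fun a b hab => by
    obtain ⟨c, c1, c2⟩ : ∃ c, c ≠ a ∧ c ≠ b := by revert a b; decide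
    have k3 : ∀ m n : ℤ, m ≠ 0 ∨ n ≠ 0 → ∃ j, A j a * m + A j b * n = 0 := fun m n h => by
      obtain ⟨j, hj⟩ := key (fun x => (if x = a then m else 0) + if x = b then n else 0)
        (fun h0 => by
          have h1 := congrFun h0 a
          have h2 := congrFun h0 b
          simp [hab, hab.symm] at h1 h2
          omega) ⟨c, by simp [c1, c2]⟩
      exact ⟨j, by simpa [mulVec, dotProduct, mul_add, Finset.sum_add_distrib] using hj⟩
    obtain ⟨j1, h1⟩ := k3 1 0 (by simp)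
    obtain ⟨j2, h2⟩ := k3 0 1 (by simp)
    obtain ⟨j3, h3⟩ := k3 1 1 (by simp)
    obtain ⟨j4, h4⟩ := k3 1 2 (by simp)
    have : j1 = j2 ∨ j1 = j3 ∨ j1 = j4 ∨ j2 = j3 ∨ j2 = j4 ∨ j3 = j4 := by omega
    rcases this with rfl | rfl | rfl | rfl | rfl | rfl
    exacts [⟨j1, by omega⟩, ⟨j1, by omega⟩, ⟨j1, by omega⟩, ⟨j2, by omega⟩, ⟨j2, by omega⟩,
      ⟨j3, by omega⟩]
  have d1 : A.det = 125 ∨ A.det = -125 := by
    have := Int.isUnit_iff.mp ((isUnit_iff_isUnit_det _).mp g.isUnit)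
    rw [hA, det_mul, det_mul]
    rcases this with h | h <;> simp [h, det_fin_three]
  have w : ∀ j, A j 2 - A j 0 - A j 1 = 5 * ![5 * g.1 0 1 - 2 * g.1 1 1, 5 * g.1 2 1 - g.1 1 1,
      g.1 1 1] j := fun j => by
    fin_cases j <;> simp [hA, Fin.sum_univ_three, mul_apply, vecMul, dotProduct] <;> ring
  have w0 := w 0
  have w1 := w 1
  have w2 := w 2
  simp only [cons_val_zero, cons_val_one, cons_val] at w0 w1 w2
  have fin : (A 0 2 - A 0 0 - A 0 1) * (A 1 2 - A 1 0 - A 1 1) * (A 2 2 - A 2 0 - A 2 1) = A.det ∨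
      (A 0 2 - A 0 0 - A 0 1) * (A 1 2 - A 1 0 - A 1 1) * (A 2 2 - A 2 0 - A 2 1) = -A.det := by
    obtain ⟨j1, a1, a2⟩ := k2 0 1 (by simp)
    obtain ⟨j2, a3, a4⟩ := k2 0 2 (by simp)
    obtain ⟨j3, a5, a6⟩ := k2 1 2 (by simp)
    rw [det_fin_three] at d1 ⊢
    fin_cases j1 <;> fin_cases j2 <;> fin_cases j3 <;>
      simp only [Fin.zero_eta, Fin.mk_one, Fin.reduceFinMk] at a1 a2 a3 a4 a5 a6 <;>
      simp only [a1, a2, a3, a4, a5, a6, mul_zero, zero_mul, sub_zero, add_zero, zero_sub,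
        zero_add] at d1 ⊢ <;> first | omega | (left; ring1) | (right; ring1)
  rw [w0, w1, w2] at fin
  generalize g.1 0 1 = x at *
  generalize g.1 1 1 = y at *
  generalize g.1 2 1 = z at *
  have u : IsUnit ((5 * x - 2 * y) * ((5 * z - y) * y)) := Int.isUnit_iff.mpr (by
    rcases fin with h | h <;> rcases d1 with h' | h' <;> rw [h'] at h <;>
      first | (left; linarith) | (right; linarith))
  have u1 := Int.isUnit_iff.mp (isUnit_of_mul_isUnit_left u)
  have u2 := Int.isUnit_iff.mp (isUnit_of_mul_isUnit_right (isUnit_of_mul_isUnit_right u))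
  omega

lemma vs_image (h : E ≃L[ℝ] E) (F : Set E) :
    vectorSpan ℝ (h '' F) = (vectorSpan ℝ F).map (h : E →ₗ[ℝ] E) :=
  (AffineMap.vectorSpan_image_eq_submodule_map (h : E →ₗ[ℝ] E).toAffineMap).symm

lemma cell_image (h : E ≃L[ℝ] E) {K F : Set E} {d : ℕ} (hF : IsCell K d F) :
    IsCell (h '' K) d (h '' F) := by
  obtain ⟨h1, h2, h3⟩ := hF
  refine ⟨h1.image _, fun _ => ?_, ?_⟩
  · obtain ⟨l, rfl⟩ := h2 h1
    refine ⟨l.comp (h.symm : E →L[ℝ] E), ?_⟩
    ext x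
    obtain ⟨x, rfl⟩ := h.surjective x
    simp
  · rw [vs_image, ← h3]
    exact LinearEquiv.finrank_map_eq h.toLinearEquiv _

lemma aux {x y z a b c m : ℝ} (a1 : m ≤ x / 5 * a + y / 5 * b + z / 5 * c)
    (a3 : 0 ≤ (x + y + z - 5) * -m) (a4 : 0 ≤ x * (m - a)) (a5 : 0 ≤ y * (m - b))
    (a6 : 0 ≤ z * (m - c)) :
    x * (m - a) = 0 ∧ y * (m - b) = 0 ∧ z * (m - c) = 0 ∧ (x + y + z - 5) * m = 0 :=
  ⟨by linarith, by linarith, by linarith, by linarith⟩

lemma cell_plane {F : Set E} {d : ℕ} (hd : d ≤ 2) (hF : IsCell (hull (LL (1 : ℤ)) 1) d F) :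
    (∃ i, ∀ x ∈ F, (LL (1 : ℤ) *ᵥ x) i = 0) ∨ ∀ x ∈ F, ∑ i, (LL (1 : ℤ) *ᵥ x) i = 5 := by
  obtain ⟨h1, h2, h3⟩ := hF
  obtain ⟨l, rfl⟩ := h2 h1
  rw [hull_eq 1 (.inl rfl)] at *
  set K := {x : E | (∀ i, 0 ≤ (LL (1 : ℤ) *ᵥ x) i) ∧ 5 ≤ ∑ i, (LL (1 : ℤ) *ᵥ x) i}
  have e : ∀ x, l x = ∑ i, (LL (1 : ℤ) *ᵥ x) i / 5 * l (V (1 : ℤ) i) := fun x => by
    conv_lhs => rw [decomp (1 : ℤ) x]
    simp
  have up : ∀ x ∈ K, ∀ i, x + V (1 : ℤ) i ∈ K := fun x hx i => by
    refine ⟨fun j => ?_, ?_⟩ <;> simp only [mulVec_add, LV, Pi.add_apply]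
    · exact add_nonneg (hx.1 j) (by rw [Pi.single_apply]; positivity)
    · simp only [Finset.sum_add_distrib, Finset.sum_pi_single', Finset.mem_univ, if_true]
      linarith [hx.2]
  have vK : ∀ i, V (1 : ℤ) i ∈ K := fun i => by
    refine ⟨fun j => ?_, ?_⟩ <;> rw [LV]
    · rw [Pi.single_apply]; positivity
    · simp
  obtain ⟨z, z1, z2⟩ := h1
  have neg : ∀ i, l (V (1 : ℤ) i) ≤ 0 := fun i => by simpa using z2 _ (up z z1 i)
  by_contra! hc
  obtain ⟨c1, x, ⟨x1, x2⟩, x3⟩ := hc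
  obtain ⟨k, -, hk⟩ := Finset.exists_max_image Finset.univ (fun i => l (V (1 : ℤ) i))
    Finset.univ_nonempty
  have bd : ∀ y ∈ K, (∀ w ∈ K, l w ≤ l y) → (∀ i, (LL (1 : ℤ) *ᵥ y) i *
      (l (V (1 : ℤ) k) - l (V (1 : ℤ) i)) = 0) ∧
      (∑ i, (LL (1 : ℤ) *ᵥ y) i - 5) * l (V (1 : ℤ) k) = 0 := fun y y1 y2 => by
    have a1 := y2 _ (vK k)
    have a2 := fun i => mul_nonneg (y1.1 i) (sub_nonneg.mpr (hk i (Finset.mem_univ _)))
    have a3 := mul_nonneg (sub_nonneg.mpr y1.2) (neg_nonneg.mpr (neg k))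
    have a4 := a2 0
    have a5 := a2 1
    have a6 := a2 2
    rw [e y] at a1
    simp only [Fin.sum_univ_three] at *
    obtain ⟨t0, t1, t2, t3⟩ := aux a1 a3 a4 a5 a6
    refine ⟨fun i => ?_, t3⟩
    fin_cases i
    exacts [t0, t1, t2]
  have k0 : l (V (1 : ℤ) k) = 0 :=
    (mul_eq_zero.mp (bd x x1 x2).2).resolve_left (sub_ne_zero.mpr x3)
  have l0 : ∀ y, l y = 0 := fun y => by
    rw [e]
    refine Finset.sum_eq_zero fun i _ => ?_
    obtain ⟨w, ⟨w1, w2⟩, w3⟩ := c1 i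
    rw [← sub_eq_zero.mp ((mul_eq_zero.mp ((bd w w1 w2).1 i)).resolve_left w3), k0, mul_zero]
  have top : vectorSpan ℝ {x ∈ K | ∀ y ∈ K, l y ≤ l x} = ⊤ := by
    refine top_unique fun y _ => ?_
    rw [decomp (1 : ℤ) y]
    refine Submodule.sum_mem _ fun i _ => Submodule.smul_mem _ _ ?_
    simpa using vsub_mem_vectorSpan ℝ (s := {x ∈ K | ∀ y ∈ K, l y ≤ l x})
      ⟨up z z1 i, by simp [l0]⟩ ⟨z1, z2⟩
  rw [top, finrank_top, Module.finrank_fin_fun] at h3
  omega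

/-- the shear -/
noncomputable def sh : E ≃L[ℝ] E := LinearEquiv.toContinuousLinearEquiv
  (toLin'OfInv (M := !![1, -1 / 5, 0; 0, 1, 0; 0, 0, 1]) (M' := !![1, 1 / 5, 0; 0, 1, 0; 0, 0, 1])
    (by ext i j; fin_cases i <;> fin_cases j <;> simp [mul_apply, Fin.sum_univ_three] <;> norm_num)
    (by ext i j; fin_cases i <;> fin_cases j <;> simp [mul_apply, Fin.sum_univ_three] <;> norm_num))

lemma sh_apply (x : E) : sh x = ![x 0 + x 1 / 5, x 1, x 2] := by
  ext i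
  fin_cases i <;> simp [sh, mulVec, dotProduct, Fin.sum_univ_three]
  ring

lemma LL_sh (x : E) : LL (2 : ℤ) *ᵥ sh x = LL (1 : ℤ) *ᵥ x := by
  rw [LL_mul, LL_mul, sh_apply]
  ext i
  fin_cases i <;> simp
  ring

lemma sh_hull : sh '' hull (LL (1 : ℤ)) 1 = hull (LL (2 : ℤ)) 1 := by
  rw [hull_eq 1 (.inl rfl), hull_eq 2 (.inr rfl)]
  ext x
  obtain ⟨x, rfl⟩ := sh.surjective x
  simp only [sh.injective.mem_set_image, mem_ofPred, LL_sh]

lemma sh_lat {x : E} (h : (∃ i, (LL (1 : ℤ) *ᵥ x) i = 0) ∨ ∑ i, (LL (1 : ℤ) *ᵥ x) i = 5 ∨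
    ∑ i, (LL (1 : ℤ) *ᵥ x) i = 0) : sh x ∈ Lat ↔ x ∈ Lat := by
  obtain ⟨a, c, e, h⟩ : ∃ a c e : ℤ, (a = 0 ∨ a = 1) ∧ x 1 = 5 * (a * x 0 + c * x 2 + e) := by
    simp only [LL_mul, Fin.sum_univ_three, Fin.exists_fin_succ] at h
    simp at h
    rcases h with (h | h | h) | h | h
    exacts [⟨1, 0, 0, by simp, by push_cast; linarith⟩, ⟨0, 1, 0, by simp, by push_cast; linarith⟩,
      ⟨0, 0, 0, by simp, by push_cast; linarith⟩, ⟨1, 1, -1, by simp, by push_cast; linarith⟩,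
      ⟨1, 1, 0, by simp, by push_cast; linarith⟩]
  rw [mem_Lat, mem_Lat, sh_apply]
  constructor
  · rintro ⟨p, q, r, hx⟩
    have h0 := congrFun hx 0
    have h1 := congrFun hx 1
    have h2 := congrFun hx 2
    simp at h0 h1 h2
    obtain ⟨rfl | rfl, h⟩ := h
    · refine ⟨p - c * r - e, q, r, ?_⟩
      ext i
      fin_cases i <;> simp [h1, h2]
      rw [h2] at h
      push_cast at h
      linarith
    · refine ⟨q - 2 * p - 3 * (c * r + e), q, r, ?_⟩
      ext i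
      fin_cases i <;> simp [h1, h2]
      rw [h2] at h
      push_cast at h
      linarith
  · rintro ⟨p, q, r, rfl⟩
    refine ⟨p + (a * p + c * r + e), q, r, ?_⟩
    ext i
    fin_cases i <;> simp
    have := h.2
    simp at this
    linarith

theorem result : ∃ (L L' : Matrix (Fin 3) (Fin 3) ℝ) (s s' : Fin 3 → ℤˣ),
    L.det ≠ 0 ∧ L'.det ≠ 0 ∧ ¬ Equivalent L L' ∧ ∃ h : E ≃ₜ E, h '' sail L s = sail L' s' ∧
      (∀ d ≤ 2, ∀ F, IsCell (hull L s) d F ↔ IsCell (hull L' s') d (h '' F)) ∧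
      (∀ F, IsCell (hull L s) 2 F →
        intArea (h '' F) = intArea F ∧ ∃ c, IntDist F c ∧ IntDist (h '' F) c) ∧
      (∀ A, IsCell (hull L s) 1 A → intLength (h '' A) = intLength A) ∧
      ∀ F A B v, IsCell (hull L s) 2 F → IsCell (hull L s) 1 A → IsCell (hull L s) 1 B →
        A ⊆ F → B ⊆ F → v ∈ A → v ∈ B →
        intAngle (h '' F) (h v) (h '' A) (h '' B) = intAngle F v A B := by
  have pt : ∀ {d F}, d ≤ 2 → IsCell (hull (LL (1 : ℤ)) 1) d F → ∀ v ∈ F, ∀ y ∈ F, ∀ t : ℝ,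
      sh (v + t • (y - v)) ∈ Lat ↔ v + t • (y - v) ∈ Lat := fun hd hF v hv y hy t => by
    refine sh_lat ((cell_plane hd hF).imp (fun ⟨i, h⟩ => ⟨i, ?_⟩) fun h => .inl ?_) <;>
      simp only [mulVec_add, mulVec_smul, mulVec_sub, Pi.add_apply, Pi.smul_apply, Pi.sub_apply,
        smul_eq_mul, Finset.sum_add_distrib, ← Finset.mul_sum, Finset.sum_sub_distrib,
        h v hv, h y hy] <;> ring
  have pt' : ∀ {d F}, d ≤ 2 → IsCell (hull (LL (1 : ℤ)) 1) d F → ∀ v ∈ F,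
      sh v ∈ Lat ↔ v ∈ Lat := fun hd hF v hv => by simpa using pt hd hF v hv v hv 0
  let f : E →+ E := (sh : E →ₗ[ℝ] E).toAddMonoidHom
  have pl : ∀ {F}, IsCell (hull (LL (1 : ℤ)) 1) 2 F → planeLat (sh '' F) = (planeLat F).map f :=
    fun {F} hF => by
    ext x
    obtain ⟨x, rfl⟩ := sh.surjective x
    rw [show sh x = f x from rfl, AddSubgroup.mem_map_iff_mem sh.injective, planeLat, planeLat,
      vs_image]
    simp only [AddSubgroup.mem_inf, Submodule.mem_toAddSubgroup]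
    rw [show f x ∈ (vectorSpan ℝ F).map (sh : E →ₗ[ℝ] E) ↔ x ∈ vectorSpan ℝ F from
      sh.injective.mem_set_image]
    refine and_congr_left fun hx => sh_lat ((cell_plane le_rfl hF).imp (fun ⟨i, h⟩ => ⟨i, ?_⟩)
      fun h => .inr ?_) <;> induction hx using Submodule.span_induction with
      | mem u hu =>
        obtain ⟨a, ha, b, hb, rfl⟩ := hu
        simp [-Int.cast_one, mulVec_sub, h a ha, h b hb]
      | zero => simp
      | add u w _ _ hu hw => simp [-Int.cast_one, mulVec_add, Finset.sum_add_distrib, hu, hw]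
      | smul t u _ hu => simp [-Int.cast_one, mulVec_smul, ← Finset.mul_sum, hu]
  have im : ∀ {d F}, d ≤ 2 → IsCell (hull (LL (1 : ℤ)) 1) d F → sh '' F ∩ Lat = sh '' (F ∩ Lat) :=
    fun hd hF => by
    ext x
    obtain ⟨x, rfl⟩ := sh.surjective x
    simp only [mem_inter_iff, sh.injective.mem_set_image]
    exact and_congr_right (pt' hd hF x)
  refine ⟨LL (1 : ℤ), LL (2 : ℤ), 1, 1, by simp [LL, det_fin_three], by simp [LL, det_fin_three],
    not_equiv, sh.toHomeomorph, by rw [sail, sail, ← sh_hull]; exact sh.toHomeomorph.image_frontier _,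
    fun d _ F => ⟨fun h => sh_hull ▸ cell_image sh h, fun h => ?_⟩, fun F hF => ⟨?_, ?_⟩,
    fun A hA => ?_, fun F A B v hF _ _ hA hB vA vB => ?_⟩
  · have := cell_image sh.symm h
    rw [← sh_hull] at this
    simpa [image_image] using this
  · let e : (Fin 3 → E) ≃ (Fin 3 → E) := Equiv.piCongrRight fun _ => sh.toEquiv
    have e1 : ∀ T i, e T i = sh (T i) := fun _ _ => rfl
    have e2 : ∀ T, openTri (e T) = sh '' openTri T := fun T => by
      ext x
      obtain ⟨x, rfl⟩ := sh.surjective x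
      simp only [sh.injective.mem_set_image, openTri, mem_ofPred, e1, ← map_smul, ← map_sum,
        sh.injective.eq_iff]
    have e3 : ∀ T, triArea (sh '' F) (e T) = triArea F T := fun T => by
      rw [triArea, triArea, pl hF, ← AddSubgroup.relIndex_map_map_of_injective (f := f) _ (planeLat F)
        sh.injective, AddMonoidHom.map_closure, image_pair, map_sub, map_sub]
      rfl
    refine (e.finsetCongr.iSup_congr fun S => iSup_congr_Prop ?_ fun _ => iSup_congr_Prop ?_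
      fun _ => ?_).symm
    · simp only [Equiv.finsetCongr_apply, Finset.forall_mem_map, Equiv.coe_toEmbedding, e1,
        ContinuousLinearEquiv.coe_toHomeomorph, im le_rfl hF, sh.injective.mem_set_image]
    · simp only [Equiv.finsetCongr_apply, Finset.coe_map, Equiv.coe_toEmbedding]
      rw [e.injective.injOn.pairwise_image]
      refine forall₅_congr fun _ _ _ _ _ => ?_
      simp only [Function.onFun, e2, disjoint_image_iff sh.injective]
    · simp only [Equiv.finsetCongr_apply, Finset.sum_map, Equiv.coe_toEmbedding,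
        ContinuousLinearEquiv.coe_toHomeomorph, e3]
  · have q : ∀ (l l' : Fin 3 → ℤ) (c : ℤ), Finset.univ.gcd l = 1 → Finset.univ.gcd l' = 1 →
        (∀ x ∈ F, ∑ i, (l i : ℝ) * x i = c) → (∀ x, ∑ i, (l' i : ℝ) * sh x i = ∑ i, (l i : ℝ) * x i) →
        ∃ c, IntDist F c ∧ IntDist (sh '' F) c := fun l l' c h1 h2 h3 h4 =>
      ⟨_, ⟨l, c, h1, rfl, h3⟩, l', c, h2, rfl, by rintro _ ⟨x, hx, rfl⟩; rw [h4, h3 x hx]⟩
    rcases cell_plane le_rfl hF with ⟨i, h⟩ | h
    · fin_cases i <;>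
        [refine q ![5, -1, 0] ![5, -2, 0] 0 (by decide) (by decide) (fun x hx => ?_) fun x => ?_;
        refine q ![0, -1, 5] ![0, -1, 5] 0 (by decide) (by decide) (fun x hx => ?_) fun x => ?_;
        refine q ![0, 1, 0] ![0, 1, 0] 0 (by decide) (by decide) (fun x hx => ?_) fun x => ?_] <;>
        (try have := h x hx) <;> simp [LL_mul, Fin.sum_univ_three, sh_apply] at * <;> linarith
    · refine q ![5, -1, 5] ![5, -2, 5] 5 (by decide) (by decide) (fun x hx => ?_) fun x => ?_ <;>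
        (try have := h x hx) <;> simp [LL_mul, Fin.sum_univ_three, sh_apply] at * <;> linarith
  · rw [intLength, intLength, ContinuousLinearEquiv.coe_toHomeomorph, im one_le_two hA,
      sh.injective.encard_image]
  · rw [intAngle, intAngle, ContinuousLinearEquiv.coe_toHomeomorph, pl hF,
      ← AddSubgroup.relIndex_map_map_of_injective (f := f) _ (planeLat F) sh.injective,
      AddMonoidHom.map_closure]
    have r1 : ∀ C, ray (sh v) (sh '' C) = sh '' ray v C := fun C => by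
      ext x
      obtain ⟨x, rfl⟩ := sh.surjective x
      simp only [sh.injective.mem_set_image, ray, mem_ofPred, exists_mem_image, ← map_sub,
        ← map_smul, ← map_add, sh.injective.eq_iff]
    have r2 : (sh '' ray v A ∪ sh '' ray v B) ∩ Lat = sh '' ((ray v A ∪ ray v B) ∩ Lat) := by
      ext x
      obtain ⟨x, rfl⟩ := sh.surjective x
      simp only [mem_inter_iff, ← image_union, sh.injective.mem_set_image]
      refine and_congr_right ?_
      rintro (⟨y, hy, t, -, rfl⟩ | ⟨y, hy, t, -, rfl⟩)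
      exacts [pt le_rfl hF v (hA vA) y (hA hy) t, pt le_rfl hF v (hA vA) y (hB hy) t]
    rw [r1, r1, r2, image_image, image_image]
    simp only [← map_sub]
    rfl

end Pool.Agent.Results.MP_97563e_nt.Counter
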